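import Pool.Agent.helper4.GA.Spec

set_option autoImplicit false

/-! # MP_3c0a64_an, row NRM -/

open Finset
open Pool.Agent.helper32.Cant

namespace Pool.Agent.GA

theorem NRM : NRM_stmt := by
  intro M _ f hf
  have hmaps : ∀ ξ ∈ (Finset.univ : Finset (ZMod M)), ξ.valMinAbs.natAbs ∈ range (M + 1) := by
    intro ξ _
    rw [Finset.mem_range]
    have h1 := ZMod.natAbs_valMinAbs_le ξ
    omega
  rw [← Finset.sum_fiberwise_of_maps_to hmaps, Finset.mul_sum]
  apply Finset.sum_le_sum
  intro i _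
  have h1 : ∑ ξ ∈ (Finset.univ : Finset (ZMod M)) with ξ.valMinAbs.natAbs = i,
      f ξ.valMinAbs.natAbs =
      (((Finset.univ : Finset (ZMod M)).filter fun ξ => ξ.valMinAbs.natAbs = i).card : ℝ) * f i := by
    rw [Finset.sum_congr rfl (g := fun _ => f i) (fun ξ hξ => by
      rw [(Finset.mem_filter.1 hξ).2]), Finset.sum_const, nsmul_eq_mul]
  rw [h1]
  apply mul_le_mul_of_nonneg_right _ (hf i)
  have h2 : ((Finset.univ : Finset (ZMod M)).filter fun ξ => ξ.valMinAbs.natAbs = i) ⊆
      {((i : ℤ) : ZMod M), ((-(i : ℤ) : ℤ) : ZMod M)} := by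
    intro ξ hξ
    have h3 := (Finset.mem_filter.1 hξ).2
    rw [Finset.mem_insert, Finset.mem_singleton]
    have h4 : (ξ.valMinAbs : ZMod M) = ξ := ZMod.coe_valMinAbs ξ
    rcases Int.natAbs_eq ξ.valMinAbs with h5 | h5
    · left
      rw [← h4, h5, h3]
    · right
      rw [← h4, h5, h3]
  have h3 := (Finset.card_le_card h2).trans Finset.card_le_two
  exact_mod_cast h3

end Pool.Agent.GA
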